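import Pool.Agent.HamChrom.D4.Fam

set_option autoImplicit false

namespace Pool.Agent.HamChrom.D4

open Pool.Agent.HamChrom

def certA0 : Cert := ⟨[1], 2 ^ 61, [
  ((.nu 0), [⟨0, 1, [10221311232, 42591359744, 66382355456, 45875890944, 11425518592]⟩, ⟨0, 19, [1070450944, 8626054144, 19420521472, 13430519040, 3051088128]⟩]),
  ((.nu 1), [⟨2, 0, [383986432, 11821345792, 33223975936, 32519845120, 10295175424]⟩, ⟨2, 1, [0, 256, 0, 0, 876118784]⟩]),
  ((.nu 16), [⟨1, 8, [3216250112, 12595008512, 19082501120, 13244992256, 3979302656]⟩, ⟨1, 64, [2826795776, 12494204160, 19961218048, 13746992384, 3891248128]⟩, ⟨1, 72, [17689497600, 71576518400, 108567355392, 73163145216, 17606692096]⟩, ⟨1, 73, [3527327744, 19062849536, 36342497280, 29605756928, 8798781440]⟩]),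
  ((.nu 2), [⟨0, 0, [1717760, 6871296, 10323968, 6875648, 1717504]⟩, ⟨3, 0, [7368406272, 21605028864, 20668488704, 5995531008, 1718016]⟩]),
  ((.nu 3), [⟨0, 0, [10787858944, 45031696128, 70240221184, 48536819200, 12540422912]⟩, ⟨0, 1, [1956471296, 3880011776]⟩]),
  ((.nu 4), [⟨0, 0, [12509901824, 53260341760, 84602628352, 55649672960, 13282972416]⟩, ⟨0, 1, [867585024, 4218138368, 8549947136, 11729985792, 5921222656]⟩, ⟨0, 3, [1890921472, 3968560896, 380532736, 233248256, 6802176]⟩, ⟨0, 17, [8608445952, 34193185280, 50156366080, 32166944512, 7157265152]⟩, ⟨0, 18, [6345853952, 24731168256, 36237367040, 27478810880, 8141270272]⟩]),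
  ((.nu 5), [⟨0, 0, [1717504, 6869504, 10304256, 6870528, 1717760]⟩, ⟨0, 2, [6928962560, 30366126592, 49489668352, 31782641408, 7215624960]⟩]),
  ((.nu 6), [⟨0, 0, [1718016, 6872064, 45243392, 3890907904, 2365331200]⟩, ⟨0, 1, [4515402240, 27130742784, 54229944320, 37500938752, 8857309696]⟩])]⟩

theorem checkA0 : Checked par fams famA true certA0 :=
  ⟨by decide +kernel, by decide +kernel, by decide +kernel⟩

end Pool.Agent.HamChrom.D4
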