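import Pool.Agent.HamChrom.D4.Fam

set_option autoImplicit false

namespace Pool.Agent.HamChrom.D4

open Pool.Agent.HamChrom

def certH0 : Cert := ⟨[1], 2 ^ 60, [
  ((.nu 0), [⟨0, 1, [1791775232, 768, 1792, 1280]⟩, ⟨2, 0, [3193417216, 18910543104, 26820475136, 16850090752, 3954966528]⟩]),
  ((.nu 16), [⟨1, 8, [7499387392, 23855366912, 37271471872, 25807291648, 6683574272]⟩, ⟨1, 9, [6791819264, 28112912384, 43620704256, 30069948416, 7770337280]⟩, ⟨1, 64, [11344256512, 47826664704, 64378181888, 37820496640, 8132947968]⟩, ⟨1, 72, [5047111680, 25491603456, 46526717952, 36767072256, 10684846080]⟩]),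
  ((.nu 2), [⟨0, 0, [6526861312, 24197988352, 33281802240, 20077084672, 4466409472]⟩, ⟨0, 1, [4994084352, 26058161408, 37459327232, 23887608576, 5700583424]⟩, ⟨3, 0, [6138909184, 21287666432, 37931190016, 29387916544, 8397258752]⟩]),
  ((.nu 4), [⟨0, 0, [10327539200, 42512178432, 54851305984, 30643344640, 6184900352]⟩, ⟨0, 1, [6191534080, 29628932096, 51771520768, 39422371328, 11088251136]⟩, ⟨0, 2, [7532593664, 27259544320, 47303065088, 35790760704, 10006423808]⟩, ⟨0, 3, [1712128, 6864896, 10293760, 6861824, 1715712]⟩, ⟨0, 19, [8704745472, 35786629120, 55329462016, 38118008320, 9870432512]⟩]),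
  ((.nu 6), [⟨0, 0, [1720832, 898343680, 13555695104, 17256131328, 6388836608]⟩, ⟨0, 16, [5299092992, 24037317888, 29446406656, 15144342784, 2644383488]⟩])]⟩

theorem checkH0 : Checked par fams famH true certH0 :=
  ⟨by decide +kernel, by decide +kernel, by decide +kernel⟩

end Pool.Agent.HamChrom.D4
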