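import Pool.Agent.HamChrom.D4.Fam

set_option autoImplicit false

namespace Pool.Agent.HamChrom.D4

open Pool.Agent.HamChrom

def certP0 : Cert := ⟨[1], 2 ^ 60, [
  ((.nu 0), [⟨0, 0, [10075766784, 44134563840, 71949090816, 51797557248, 13907263488]⟩]),
  ((.nu 1), [⟨0, 2, [9682494464, 35804404224, 48227247616, 27769611264, 5665796864]⟩, ⟨2, 0, [30767897600, 141326296576, 240462502400, 180019354624, 50113727744]⟩]),
  ((.nu 16), [⟨1, 0, [35773815808, 156936709632, 256937957888, 186162699264, 50386111744]⟩, ⟨1, 8, [1803264, 8247808, 13805056, 8430592, 2593536]⟩]),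
  ((.nu 4), [⟨0, 0, [20088438784, 88621711360, 144856154112, 104200929280, 27878047744]⟩, ⟨0, 2, [10235854848, 44173099008, 71582515200, 51589152768, 13943881728]⟩]),
  ((.nu 5), [⟨0, 0, [10075766784, 44134563840, 71949090816, 51797557248, 13907263488]⟩])]⟩

theorem checkP0 : Checked par fams famP true certP0 :=
  ⟨by decide +kernel, by decide +kernel, by decide +kernel⟩

end Pool.Agent.HamChrom.D4
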