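import Pool.Agent.HamChrom.D4.Fam

set_option autoImplicit false

namespace Pool.Agent.HamChrom.D4

open Pool.Agent.HamChrom

def certS0 : Cert := ⟨[1, 1], 2 ^ 42, [
  ((.nu 0), [⟨2, 0, [262144, 1048576, 1572864, 1048576, 262144]⟩]),
  ((.nu 16), [⟨1, 0, [262144, 1048576, 1572864, 1048576, 262144]⟩, ⟨1, 8, [102400, 434176, 688128, 483328, 126976]⟩]),
  ((.nu 4), [⟨0, 0, [262144, 1048576, 1572864, 1048576, 262144]⟩, ⟨0, 2, [102400, 434176, 688128, 483328, 126976]⟩])]⟩

theorem checkS0 : Checked par fams (FF par) true certS0 :=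
  ⟨by decide +kernel, by decide +kernel, by decide +kernel⟩

end Pool.Agent.HamChrom.D4
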